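import Mathlib
import Pool.Agent.H19.OM.Stm
import Pool.Graph.R_seed8.Erdos456.Mertens

set_option autoImplicit false

/-!
# Project OM, module UP: the upper bound
-/

namespace Pool.Agent.H42.OM

open Finset Filter Topology Pool.Agent.H19.OM
open scoped NNReal

/-- Mertens -/
theorem mert : ∃ C : ℝ, 0 ≤ C ∧ ∀ M y : ℕ, 3 ≤ M → M ≤ y →
    Real.log (Real.log y) - C - Real.log (Real.log M) ≤ ∑ q ∈ prs M y, 1 / (q : ℝ) ∧
    ∑ p ∈ prs 0 M, 1 / (p : ℝ) ≤ Real.log (Real.log M) + C := by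
  obtain ⟨C, hC⟩ := Pool.Agent.Erdos456.Mert.mertens_inv
  have hC0 : 0 ≤ C := (abs_nonneg _).trans (hC 3 le_rfl)
  refine ⟨2 * C, by linarith, fun M y hM hy => ?_⟩
  have e1 : ∀ n : ℕ, prs 0 n = (Icc 1 n).filter Nat.Prime := by
    intro n
    unfold prs
    congr 1
  have h1 := abs_le.1 (hC M hM)
  have h2 := abs_le.1 (hC y (hM.trans hy))
  have h3 : ∑ p ∈ (Icc 1 y).filter Nat.Prime, (1 : ℝ) / p =
      ∑ p ∈ (Icc 1 M).filter Nat.Prime, (1 : ℝ) / p + ∑ q ∈ prs M y, 1 / (q : ℝ) := by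
    rw [← e1, ← e1]
    unfold prs
    rw [← sum_union]
    · rw [← filter_union]
      congr 2
      rw [Finset.Ioc_union_Ioc_eq_Ioc (Nat.zero_le _) hy]
    · refine disjoint_filter_filter ?_
      rw [disjoint_left]
      intro a ha hb
      rw [mem_Ioc] at ha hb
      omega
  refine ⟨by linarith, ?_⟩
  rw [e1]
  linarith

theorem sqs (M y k : ℕ) (hM : 1 ≤ M) (hy : M ≤ y) :
    ∑ q ∈ prs M y, ((k : ℝ) / q) ^ 2 ≤ (k : ℝ) ^ 2 / M := by
  have h1 : ∑ q ∈ prs M y, ((k : ℝ) / q) ^ 2 ≤ ∑ q ∈ Ioc M y, ((k : ℝ) / q) ^ 2 :=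
    sum_le_sum_of_subset_of_nonneg (filter_subset _ _) fun _ _ _ => sq_nonneg _
  refine h1.trans ?_
  have h2 : ∑ q ∈ Ioc M y, ((k : ℝ) / q) ^ 2 = (k : ℝ) ^ 2 * ∑ q ∈ Ioc M y, ((q : ℝ) ^ 2)⁻¹ := by
    rw [mul_sum]
    exact sum_congr rfl fun q _ => by rw [div_pow, div_eq_mul_inv]
  rw [h2, div_eq_mul_inv]
  refine mul_le_mul_of_nonneg_left ?_ (sq_nonneg _)
  have h3 := sum_Ioc_inv_sq_le_sub (α := ℝ) (by omega : M ≠ 0) hy
  have h4 : (0 : ℝ) ≤ (y : ℝ)⁻¹ := by positivity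
  linarith

theorem cubes : ∃ C : ℝ, 0 < C ∧ ∀ S : Finset ℕ, ∑ p ∈ S, 1 / ((p : ℝ) * Real.sqrt p) ≤ C := by
  have h1 : Summable fun p : ℕ => 1 / ((p : ℝ) * Real.sqrt p) := by
    have h2 : Summable fun p : ℕ => 1 / (p : ℝ) ^ (3 / 2 : ℝ) :=
      Real.summable_one_div_nat_rpow.2 (by norm_num)
    refine h2.congr fun p => ?_
    rcases Nat.eq_zero_or_pos p with rfl | hp
    · simp
    have h3 : (0 : ℝ) < p := by exact_mod_cast hp
    have h4 : (p : ℝ) ^ (3 / 2 : ℝ) = p * Real.sqrt p := by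
      rw [Real.sqrt_eq_rpow, ← Real.rpow_one_add' h3.le (by norm_num)]
      norm_num
    rw [h4]
  refine ⟨(∑' p : ℕ, 1 / ((p : ℝ) * Real.sqrt p)) + 1, ?_, fun S => ?_⟩
  · have : 0 ≤ ∑' p : ℕ, 1 / ((p : ℝ) * Real.sqrt p) := tsum_nonneg fun p => by positivity
    linarith
  · have := h1.sum_le_tsum S fun p _ => by positivity
    linarith

/-- the terms which depend on `t` only -/
theorem ev_t (C K η : ℝ) (hη : 0 < η) : ∀ᶠ t : ℝ in atTop,
    1 ≤ t ∧ 16 * (t / (2 : ℝ) ^ ⌊Real.sqrt t / 2⌋₊) ≤ η ∧ 2 ≤ Real.sqrt t / 2 ∧ 3 ≤ ⌊t ^ 3⌋₊ ∧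
      t ^ 3 / 2 ≤ (⌊t ^ 3⌋₊ : ℝ) ∧ 8 / t ^ 2 ≤ η ∧ 12 / t ≤ η ∧
      2 * K * ((3 * Real.log t + C) / Real.sqrt t) ≤ η ∧ C + 3 * Real.log t ≤ t / 2 := by
  have hs : Tendsto (fun t : ℝ => Real.sqrt t / 2) atTop atTop :=
    Real.tendsto_sqrt_atTop.atTop_div_const (by norm_num)
  have hL : Tendsto (fun t : ℝ => ⌊Real.sqrt t / 2⌋₊) atTop atTop := tendsto_nat_floor_atTop.comp hs
  have h1 : Tendsto (fun n : ℕ => 128 * (((n + 1 : ℕ) : ℝ) ^ 2 / (2 : ℝ) ^ (n + 1))) atTop (𝓝 0) := by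
    have h2 := (tendsto_add_atTop_iff_nat 1).2
      (tendsto_pow_const_div_const_pow_of_one_lt 2 (by norm_num : (1 : ℝ) < 2))
    simpa using h2.const_mul 128
  have e1 := (h1.comp hL).eventually_le_const hη
  have e2 := eventually_ge_atTop (2 : ℝ)
  have e3 := hs.eventually_ge_atTop 2
  have hlt : Tendsto (fun t : ℝ => Real.log t / Real.sqrt t) atTop (𝓝 0) := by
    have := (isLittleO_log_rpow_atTop (by norm_num : (0 : ℝ) < 1 / 2)).tendsto_div_nhds_zero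
    simpa only [← Real.sqrt_eq_rpow] using this
  have hct : Tendsto (fun t : ℝ => C / Real.sqrt t) atTop (𝓝 0) :=
    Real.tendsto_sqrt_atTop.const_div_atTop C
  have e4 : ∀ᶠ t : ℝ in atTop, 2 * K * ((3 * Real.log t + C) / Real.sqrt t) ≤ η := by
    have h5 : Tendsto (fun t : ℝ => 2 * K * ((3 * Real.log t + C) / Real.sqrt t)) atTop (𝓝 0) := by
      have h6 := ((hlt.const_mul 3).add hct).const_mul (2 * K)
      simp only [mul_zero, add_zero] at h6
      refine h6.congr fun t => ?_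
      ring
    exact h5.eventually_le_const hη
  have e5 : ∀ᶠ t : ℝ in atTop, C + 3 * Real.log t ≤ t / 2 := by
    have h5 := Real.isLittleO_log_id_atTop.bound (by norm_num : (0 : ℝ) < 1 / 12)
    filter_upwards [h5, eventually_ge_atTop (4 * |C|), eventually_ge_atTop (1 : ℝ)] with t h6 h7 h8
    simp only [id, Real.norm_eq_abs] at h6
    rw [abs_of_nonneg (by linarith : (0 : ℝ) ≤ t)] at h6
    have h9 := le_abs_self (Real.log t)
    have h10 := le_abs_self C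
    linarith
  have e6 : ∀ᶠ t : ℝ in atTop, 8 / η + 12 / η ≤ t := eventually_ge_atTop _
  filter_upwards [e1, e2, e3, e4, e5, e6] with t h1 h2 h3 h4 h5 h6
  have ht0 : (0 : ℝ) < t := by linarith
  have ht3 : (8 : ℝ) ≤ t ^ 3 := by nlinarith [sq_nonneg (t - 2), mul_pos ht0 ht0]
  have hfl : t ^ 3 - 1 < (⌊t ^ 3⌋₊ : ℝ) := by
    have := Nat.lt_floor_add_one (t ^ 3)
    linarith
  refine ⟨by linarith, ?_, h3, ?_, by linarith, ?_, ?_, h4, h5⟩
  · refine le_trans ?_ h1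
    simp only [Function.comp]
    set L := ⌊Real.sqrt t / 2⌋₊ with hLdef
    have h7 : Real.sqrt t / 2 < (L : ℝ) + 1 := Nat.lt_floor_add_one _
    have h8 : t ≤ 4 * ((L : ℝ) + 1) ^ 2 := by
      have h9 : Real.sqrt t ≤ 2 * ((L : ℝ) + 1) := by linarith
      have h10 : t = Real.sqrt t ^ 2 := (Real.sq_sqrt ht0.le).symm
      rw [h10]
      have h11 := Real.sqrt_nonneg t
      nlinarith
    have h12 : (0 : ℝ) < 2 ^ L := by positivity
    have h13 : 128 * (((L + 1 : ℕ) : ℝ) ^ 2 / (2 : ℝ) ^ (L + 1)) = 64 * ((L : ℝ) + 1) ^ 2 / 2 ^ L := by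
      rw [pow_succ (2 : ℝ) L, mul_div_assoc', div_eq_div_iff (by positivity) h12.ne']
      push_cast
      ring
    rw [h13, ← mul_div_assoc]
    exact div_le_div_of_nonneg_right (by linarith) h12.le
  · have h7 : (2 : ℝ) < (⌊t ^ 3⌋₊ : ℝ) := by linarith
    have h8 : 2 < ⌊t ^ 3⌋₊ := by exact_mod_cast h7
    omega
  · have h7 : 8 / η ≤ t := by
      have : 0 ≤ 12 / η := by positivity
      linarith
    rw [div_le_iff₀ hη] at h7
    rw [div_le_iff₀ (by positivity)]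
    nlinarith [mul_pos hη ht0]
  · have h7 : 12 / η ≤ t := by
      have : 0 ≤ 8 / η := by positivity
      linarith
    rw [div_le_iff₀ hη] at h7
    rw [div_le_iff₀ ht0]
    linarith

/-- the terms which depend on `y` -/
theorem ev_y (η : ℝ) (hη : 0 < η) : ∀ᶠ y : ℕ in atTop,
    1 ≤ y ∧ 4 * ((y : ℝ) ^ 2 / 5 ^ y) ≤ η ∧ 4 * (y : ℝ) ^ 2 * (4 / 5) ^ y ≤ η ∧
      (Real.log (Real.log y)) ^ 7 ≤ Real.log y ∧ Real.log y ≤ y := by
  have h1 : Tendsto (fun n : ℕ => 4 * ((n : ℝ) ^ 2 / (5 : ℝ) ^ n)) atTop (𝓝 0) := by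
    simpa using (tendsto_pow_const_div_const_pow_of_one_lt 2 (by norm_num : (1 : ℝ) < 5)).const_mul 4
  have h2 : Tendsto (fun n : ℕ => 4 * (n : ℝ) ^ 2 * (4 / 5 : ℝ) ^ n) atTop (𝓝 0) := by
    have h3 := (tendsto_pow_const_mul_const_pow_of_lt_one 2 (by norm_num : (0 : ℝ) ≤ 4 / 5)
      (by norm_num)).const_mul 4
    simp only [mul_zero] at h3
    exact h3.congr fun n => by ring
  have h3 : ∀ᶠ x : ℝ in atTop, Real.log x ^ 7 ≤ x := by
    have h4 := (Real.isLittleO_pow_log_id_atTop (n := 7)).bound (by norm_num : (0 : ℝ) < 1)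
    filter_upwards [h4, eventually_ge_atTop (0 : ℝ)] with x h5 h6
    simp only [id, Real.norm_eq_abs, one_mul] at h5
    rw [abs_of_nonneg h6] at h5
    exact (le_abs_self _).trans h5
  have h4 : Tendsto (fun y : ℕ => Real.log (y : ℝ)) atTop atTop :=
    Real.tendsto_log_atTop.comp tendsto_natCast_atTop_atTop
  filter_upwards [eventually_ge_atTop 1, h1.eventually_le_const hη, h2.eventually_le_const hη,
    h4.eventually h3] with y a1 a2 a3 a4
  refine ⟨a1, a2, a3, a4, ?_⟩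
  have : (0 : ℝ) < y := by exact_mod_cast a1
  have := Real.log_le_sub_one_of_pos this
  linarith

/-- **(UP)** -/
theorem t_UP (hHYB : S_HYB) (hINT : S_INT) (hMO : S_MO) : S_UP := by
  intro ε hε
  obtain ⟨K, hK0, hK⟩ := hHYB
  obtain ⟨C, hC0, hC⟩ := mert
  obtain ⟨C1, hC1, hcub⟩ := cubes
  set η : ℝ := ε / 8 with hη
  have hη0 : 0 < η := by positivity
  set δ : ℝ := min (1 / 2) (η / (2 * K * C1 + 1)) with hδ
  have hden : 0 < 2 * K * C1 + 1 := by positivity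
  have hδ0 : 0 < δ := lt_min (by norm_num) (div_pos hη0 hden)
  have hδ1 : δ ≤ 1 / 2 := min_le_left _ _
  have hδ2 : 2 * K * C1 * δ ≤ η := by
    have h1 : δ ≤ η / (2 * K * C1 + 1) := min_le_right _ _
    rw [le_div_iff₀ hden] at h1
    nlinarith
  have hll : Tendsto (fun y : ℕ => Real.log (Real.log (y : ℝ))) atTop atTop :=
    Real.tendsto_log_atTop.comp (Real.tendsto_log_atTop.comp tendsto_natCast_atTop_atTop)
  obtain ⟨A, hA⟩ := eventually_atTop.1 ((hll.eventually (ev_t C K η hη0)).and (ev_y η hη0))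
  refine ⟨δ, hδ0, A, fun y N k hy hN hk hkδ φ hφ => ?_⟩
  obtain ⟨⟨ht1, hta, hts, hM3, hMt, htb, htc, htd, hte⟩, hy1, hya, hyb, hyc, hyd⟩ := hA y hy
  set t : ℝ := Real.log (Real.log (y : ℝ)) with ht
  set M : ℕ := ⌊t ^ 3⌋₊ with hM
  set L : ℕ := ⌊Real.sqrt t / 2⌋₊ with hL
  have ht0 : 0 < t := by linarith
  have hM1 : 1 ≤ M := by omega
  have hMr : (0 : ℝ) < M := by exact_mod_cast (by omega : 0 < M)
  have hMle : (M : ℝ) ≤ t ^ 3 := Nat.floor_le (by positivity)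
  have ht37 : t ^ 3 ≤ t ^ 7 := pow_le_pow_right₀ ht1 (by norm_num)
  have hty : t ^ 7 ≤ y := hyc.trans hyd
  have hMy : M ≤ y := by
    have : (M : ℝ) ≤ y := by linarith
    exact_mod_cast this
  have hL1 : 1 ≤ L := by
    rw [hL]
    exact Nat.le_floor (by push_cast; linarith)
  have hLle : (L : ℝ) ≤ Real.sqrt t / 2 := Nat.floor_le (by positivity)
  have hsq : Real.sqrt t ^ 2 = t := Real.sq_sqrt ht0.le
  have hst : Real.sqrt t ≤ t := by
    have h1 : 1 ≤ Real.sqrt t := by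
      rw [Real.one_le_sqrt]; exact ht1
    nlinarith
  have hLt : (L : ℝ) ≤ t := by
    have := Real.sqrt_nonneg t
    linarith
  have ht_t7 : t ≤ t ^ 7 := le_self_pow₀ ht1 (by norm_num)
  have htyy : t ≤ y := ht_t7.trans hty
  have hkt : (k : ℝ) ≤ t / 2 := hkδ.trans (by nlinarith)
  have hkt1 : (k : ℝ) ≤ t := by linarith
  have hk0 : (0 : ℝ) ≤ k := Nat.cast_nonneg k
  have hlM : Real.log (Real.log M) ≤ 3 * Real.log t := by
    have hM3' : (3 : ℝ) ≤ M := by exact_mod_cast hM3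
    have h1 : 0 < Real.log M := Real.log_pos (by linarith)
    have h2 := Real.log_le_sub_one_of_pos h1
    have h3 : Real.log M ≤ Real.log (t ^ 3) := Real.log_le_log hMr hMle
    rw [Real.log_pow] at h3
    push_cast at h3
    linarith
  obtain ⟨hB, hS⟩ := hC M y hM3 hMy
  have hBt : t / 2 ≤ ∑ q ∈ prs M y, 1 / (q : ℝ) := by
    have : t - C - Real.log (Real.log M) ≤ ∑ q ∈ prs M y, 1 / (q : ℝ) := hB
    linarith
  have hBpos : 0 < ∑ q ∈ prs M y, 1 / (q : ℝ) := by linarith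
  -- the size of `N`
  have hN1 : 1 ≤ N := le_trans (Nat.one_le_pow _ _ (by norm_num)) hN
  have hN0 : (0 : ℝ) < N := by exact_mod_cast hN1
  have hN5 : (5 : ℝ) ^ y ≤ N := by exact_mod_cast hN
  have h5pos : (0 : ℝ) < 5 ^ y := by positivity
  -- the modulus
  have hMoN : (Mo (cap M L) (prs 0 M ∪ prs M y) : ℝ) / N ≤ y * (4 / 5) ^ y := by
    have h1 : (Mo (cap M L) (prs 0 M ∪ prs M y) : ℝ) ≤ (M : ℝ) ^ (L * M) * 4 ^ y := by
      exact_mod_cast hMO y M L hM1 hMy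
    have h2 : (M : ℝ) ^ (L * M) ≤ y := by
      have h3 : (M : ℝ) ^ (L * M) = Real.exp ((L * M : ℕ) * Real.log M) := by
        rw [Real.exp_nat_mul, Real.exp_log hMr]
      have h4 : ((L * M : ℕ) : ℝ) * Real.log M ≤ t ^ 7 := by
        have h5 : Real.log M ≤ M := by
          have := Real.log_le_sub_one_of_pos hMr
          linarith
        have h6 : 0 ≤ Real.log M := Real.log_nonneg (by exact_mod_cast hM1)
        push_cast
        calc (L : ℝ) * M * Real.log M ≤ t * t ^ 3 * t ^ 3 := by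
              refine mul_le_mul (mul_le_mul hLt hMle hMr.le ht0.le) (h5.trans hMle) h6 (by positivity)
          _ = t ^ 7 := by ring
      have hy0 : (0 : ℝ) < y := by exact_mod_cast hy1
      rw [h3]
      calc Real.exp ((L * M : ℕ) * Real.log M) ≤ Real.exp (Real.log y) :=
            Real.exp_le_exp.2 (h4.trans hyc)
        _ = y := Real.exp_log hy0
    calc (Mo (cap M L) (prs 0 M ∪ prs M y) : ℝ) / N ≤ (y * 4 ^ y) / 5 ^ y := by
          refine div_le_div₀ (by positivity) (h1.trans ?_) h5pos hN5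
          exact mul_le_mul_of_nonneg_right h2 (by positivity)
      _ = y * (4 / 5) ^ y := by rw [div_pow, mul_div_assoc]
  have hyN : (y : ℝ) / N ≤ y / 5 ^ y := div_le_div_of_nonneg_left (Nat.cast_nonneg _) h5pos hN5
  obtain ⟨hI1, hI2⟩ := hINT y M L N k hN1 hL1 hM1 hMy hk φ hφ
  -- HYB
  have hH := hK (prs 0 M) (prs M y) k (cap M L) (by
      unfold prs
      refine disjoint_filter_filter ?_
      rw [disjoint_left]
      intro a ha hb
      rw [mem_Ioc] at ha hb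
      omega) hk (by linarith) (by
      intro q hq
      unfold prs at hq
      rw [mem_filter, mem_Ioc] at hq
      refine ⟨hq.2, ?_, ?_⟩
      · have h1 : t ^ 3 < (q : ℝ) := by
          have h2 : t ^ 3 < (M : ℝ) + 1 := Nat.lt_floor_add_one _
          have h3 : (M : ℝ) + 1 ≤ q := by exact_mod_cast hq.1.1
          linarith
        have h4 : t ≤ t ^ 3 := le_self_pow₀ ht1 (by norm_num)
        have h5 : (k : ℝ) ≤ q := by linarith
        exact_mod_cast h5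
      · unfold cap
        rw [if_neg (by omega)]) (by
      intro p hp
      unfold prs at hp
      rw [mem_filter, mem_Ioc] at hp
      have h1 : cap M L p = L := by
        unfold cap
        rw [if_pos hp.1.2]
      rw [h1]
      refine ⟨hp.2, hL1, ?_⟩
      have h2 : (L : ℝ) ^ 2 ≤ (Real.sqrt t / 2) ^ 2 := pow_le_pow_left₀ (Nat.cast_nonneg _) hLle 2
      have h3 : (Real.sqrt t / 2) ^ 2 = t / 4 := by rw [div_pow, hsq]; norm_num
      linarith) φ hφ
  -- the terms of HYB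
  have hT1 : 6 * ∑ q ∈ prs M y, ((k : ℝ) / q) ^ 2 ≤ η := by
    have h1 := sqs M y k hM1 hMy
    have h2 : (k : ℝ) ^ 2 / M ≤ 2 / t := by
      rw [div_le_div_iff₀ hMr ht0]
      have h3 : (k : ℝ) ^ 2 ≤ t ^ 2 := pow_le_pow_left₀ hk0 hkt1 2
      nlinarith
    have h4 : 6 * (2 / t) = 12 / t := by ring
    linarith
  have hT2 : K * (∑ p ∈ prs 0 M, ((k : ℝ) / (p * Real.sqrt p) + Real.sqrt k / p)) /
      ∑ q ∈ prs M y, 1 / (q : ℝ) ≤ 2 * η := by
    have h1 : ∑ p ∈ prs 0 M, ((k : ℝ) / (p * Real.sqrt p) + Real.sqrt k / p) =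
        k * ∑ p ∈ prs 0 M, 1 / ((p : ℝ) * Real.sqrt p) + Real.sqrt k * ∑ p ∈ prs 0 M, 1 / (p : ℝ) := by
      rw [mul_sum, mul_sum, ← sum_add_distrib]
      exact sum_congr rfl fun p _ => by ring
    have hS' : ∑ p ∈ prs 0 M, 1 / (p : ℝ) ≤ 3 * Real.log t + C := by linarith
    have hS0 : 0 ≤ ∑ p ∈ prs 0 M, 1 / (p : ℝ) := sum_nonneg fun _ _ => by positivity
    have h2 : ∑ p ∈ prs 0 M, ((k : ℝ) / (p * Real.sqrt p) + Real.sqrt k / p) ≤
        δ * t * C1 + Real.sqrt t * (3 * Real.log t + C) := by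
      rw [h1]
      refine add_le_add ?_ ?_
      · exact mul_le_mul hkδ (hcub _) (sum_nonneg fun _ _ => by positivity) (by positivity)
      · exact mul_le_mul (Real.sqrt_le_sqrt hkt1) hS' hS0 (Real.sqrt_nonneg _)
    have h3 : 0 ≤ δ * t * C1 + Real.sqrt t * (3 * Real.log t + C) := by
      have h4 : 0 ≤ 3 * Real.log t + C := hS0.trans hS'
      positivity
    calc K * (∑ p ∈ prs 0 M, ((k : ℝ) / (p * Real.sqrt p) + Real.sqrt k / p)) /
          ∑ q ∈ prs M y, 1 / (q : ℝ)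
        ≤ K * (δ * t * C1 + Real.sqrt t * (3 * Real.log t + C)) / (t / 2) :=
          div_le_div₀ (mul_nonneg hK0 h3) (mul_le_mul_of_nonneg_left h2 hK0) (by linarith) hBt
      _ = 2 * K * C1 * δ + 2 * K * ((3 * Real.log t + C) / Real.sqrt t) := by
          have h5 : Real.sqrt t ≠ 0 := (Real.sqrt_pos.2 ht0).ne'
          have h6 : Real.sqrt t / t = 1 / Real.sqrt t := by
            rw [div_eq_div_iff ht0.ne' h5, one_mul, ← sq, hsq]
          have h7 : K * (δ * t * C1 + Real.sqrt t * (3 * Real.log t + C)) / (t / 2) =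
              2 * K * C1 * δ * (t / t) + 2 * K * (3 * Real.log t + C) * (Real.sqrt t / t) := by
            field_simp
          rw [h7, h6, div_self ht0.ne']
          ring
      _ ≤ 2 * η := by linarith
  -- the errors of INT
  have hE : 2 * (k : ℝ) * (2 / (2 : ℝ) ^ L + 1 / M + y / N) ≤ 3 / 2 * η := by
    have h1 : 2 * (k : ℝ) * (2 / (2 : ℝ) ^ L) ≤ η / 2 := by
      have h2 : 2 * (k : ℝ) * (2 / (2 : ℝ) ^ L) ≤ 4 * (t / (2 : ℝ) ^ L) := by
        have h3 : (0 : ℝ) < 2 ^ L := by positivity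
        rw [← mul_div_assoc, ← mul_div_assoc]
        exact div_le_div_of_nonneg_right (by linarith) h3.le
      have h3 : 0 ≤ t / (2 : ℝ) ^ L := by positivity
      linarith
    have h4 : 2 * (k : ℝ) * (1 / M) ≤ η / 2 := by
      have h5 : 2 * (k : ℝ) * (1 / M) ≤ 4 / t ^ 2 := by
        rw [mul_one_div, div_le_div_iff₀ hMr (by positivity)]
        nlinarith [sq_nonneg t, mul_nonneg hk0 (sq_nonneg t)]
      have h6 : 4 / t ^ 2 = (8 / t ^ 2) / 2 := by ring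
      linarith
    have h7 : 2 * (k : ℝ) * (y / N) ≤ η / 2 := by
      have h8 : 2 * (k : ℝ) * (y / N) ≤ 2 * y * (y / 5 ^ y) / 2 := by
        have h9 : 2 * (k : ℝ) ≤ y := by linarith
        calc 2 * (k : ℝ) * (y / N) ≤ y * (y / 5 ^ y) :=
              mul_le_mul h9 hyN (by positivity) (Nat.cast_nonneg _)
          _ = 2 * y * (y / 5 ^ y) / 2 := by ring
      have h10 : 2 * (y : ℝ) * (y / 5 ^ y) / 2 = (4 * ((y : ℝ) ^ 2 / 5 ^ y)) / 4 := by ring
      linarith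
    nlinarith
  have hF : 2 * (Mo (cap M L) (prs 0 M ∪ prs M y) : ℝ) / N ≤ η / 2 := by
    have h1 : (1 : ℝ) ≤ y := by exact_mod_cast hy1
    have h2 : 0 ≤ (y : ℝ) * (4 / 5) ^ y := by positivity
    have h3 : 2 * (Mo (cap M L) (prs 0 M ∪ prs M y) : ℝ) / N =
      2 * ((Mo (cap M L) (prs 0 M ∪ prs M y) : ℝ) / N) := by ring
    have h4 : (y : ℝ) * (4 / 5) ^ y ≤ y * (y * (4 / 5) ^ y) := by nlinarith
    have h5 : 4 * (y : ℝ) ^ 2 * (4 / 5) ^ y = 4 * (y * (y * (4 / 5) ^ y)) := by ring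
    rw [h3]
    linarith
  have hG : (k : ℝ) * (2 * Mo (cap M L) (prs 0 M ∪ prs M y) / N) ≤ η / 2 := by
    have h2 : 0 ≤ (y : ℝ) * (4 / 5) ^ y := by positivity
    have h3 : (k : ℝ) * (2 * Mo (cap M L) (prs 0 M ∪ prs M y) / N) =
      2 * (k * ((Mo (cap M L) (prs 0 M ∪ prs M y) : ℝ) / N)) := by ring
    have h4 : (k : ℝ) * ((Mo (cap M L) (prs 0 M ∪ prs M y) : ℝ) / N) ≤ y * (y * (4 / 5) ^ y) :=
      mul_le_mul (by linarith) hMoN (by positivity) (Nat.cast_nonneg _)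
    have h5 : 4 * (y : ℝ) ^ 2 * (4 / 5) ^ y = 4 * (y * (y * (4 / 5) ^ y)) := by ring
    rw [h3]
    linarith
  have hI2' : |prd y N φ - I (cap M L) (prs 0 M ∪ prs M y) φ| ≤ 3 / 2 * η + η / 2 := by
    refine hI2.trans ?_
    rw [mul_add]
    refine add_le_add ?_ hG
    linarith
  have hI1' : |emp y N φ - J (cap M L) (prs 0 M ∪ prs M y) φ| ≤ 3 / 2 * η + η / 2 :=
    hI1.trans (add_le_add hE hF)
  have hfin : |emp y N φ - prd y N φ| ≤ |emp y N φ - J (cap M L) (prs 0 M ∪ prs M y) φ| +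
      |J (cap M L) (prs 0 M ∪ prs M y) φ - I (cap M L) (prs 0 M ∪ prs M y) φ| +
      |prd y N φ - I (cap M L) (prs 0 M ∪ prs M y) φ| := by
    have h1 : emp y N φ - prd y N φ = (emp y N φ - J (cap M L) (prs 0 M ∪ prs M y) φ) +
      (J (cap M L) (prs 0 M ∪ prs M y) φ - I (cap M L) (prs 0 M ∪ prs M y) φ) +
      (I (cap M L) (prs 0 M ∪ prs M y) φ - prd y N φ) := by ring
    rw [h1]
    refine (abs_add_three _ _ _).trans ?_
    rw [abs_sub_comm (I (cap M L) (prs 0 M ∪ prs M y) φ)]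
  have h9 : |emp y N φ - prd y N φ| ≤ 7 * η := by
    have := hH.trans (add_le_add hT1 hT2)
    linarith
  rw [hη] at h9
  linarith

end Pool.Agent.H42.OM
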