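import Mathlib
import Pool.Agent.H19.OM.Stm4

set_option autoImplicit false

/-!
# Project OM, module AVG
-/

namespace Pool.Agent.H42.OM

open Finset MeasureTheory ProbabilityTheory Pool.Agent.H19.OM
open scoped NNReal

theorem val_add (p L m c : ℕ) (hc : p ^ L ∣ c) : val p L (m + c) = val p L m := by
  unfold H19.OM.val
  congr 1
  ext a
  simp only [mem_filter, mem_Icc]
  constructor
  · rintro ⟨h1, h2⟩
    exact ⟨h1, (Nat.dvd_add_left ((pow_dvd_pow p h1.2).trans hc)).1 h2⟩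
  · rintro ⟨h1, h2⟩
    exact ⟨h1, (Nat.dvd_add_left ((pow_dvd_pow p h1.2).trans hc)).2 h2⟩

theorem per (L : ℕ → ℕ) (S : Finset ℕ) (m : ℕ) :
    ∑ p ∈ S, val p (L p) (m + Mo L S) = ∑ p ∈ S, val p (L p) m :=
  sum_congr rfl fun p hp => val_add p (L p) m _ (dvd_prod_of_mem (fun p => p ^ L p) hp)

theorem Mo_pos (L : ℕ → ℕ) (S : Finset ℕ) (hS : ∀ p ∈ S, p.Prime) : 0 < Mo L S :=
  prod_pos fun p hp => pow_pos (hS p hp).pos _

/-- the mean over a period is invariant under shifts -/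
theorem shift_sum (g : ℕ → ℝ) (Q : ℕ) (hg : ∀ m, g (m + Q) = g m) (i : ℕ) :
    ∑ n ∈ range Q, g (n + i) = ∑ n ∈ range Q, g n := by
  induction i with
  | zero => rfl
  | succ i ih =>
    rw [← ih]
    have h1 := sum_range_succ (fun n => g (n + i)) Q
    have h2 := sum_range_succ' (fun n => g (n + i)) Q
    have h3 : g (Q + i) = g (0 + i) := by
      rw [add_comm Q i, hg, zero_add]
    have h4 : ∑ n ∈ range Q, g (n + (i + 1)) = ∑ n ∈ range Q, g (n + 1 + i) :=
      sum_congr rfl fun n _ => by rw [add_assoc, add_comm 1 i]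
    rw [h4]
    linarith

theorem P_int (a : ℝ≥0) (k : ℕ) (ψ : (Fin k → ℕ) → ℝ) (hψ : Bd ψ) :
    Integrable ψ (Measure.pi (fun _ : Fin k => poissonMeasure a)) :=
  Integrable.of_bound (measurable_of_countable ψ).aestronglyMeasurable 1
    (Filter.Eventually.of_forall hψ)

/-- **(AVG)** -/
theorem t_AVG (hAFF : S_AFF) (hMOM : S_MOM) : S_AVG := by
  intro a ha L S k V hS hV φ hφ
  set Q : ℕ := Mo L S with hQ
  have hQ0 : 0 < Q := Mo_pos L S hS
  have hQr : (0 : ℝ) < Q := by exact_mod_cast hQ0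
  set U : ℕ → Fin k → ℕ := fun n i => ∑ p ∈ S, val p (L p) (n + i) with hU
  set W : (Fin k → ℕ) → Fin k → ℕ := fun n i => ∑ p ∈ S, val p (L p) (n i) with hW
  set Pi := Fintype.piFinset (fun _ : Fin k => range Q) with hPi
  have hcard : (Pi.card : ℝ) = (Q : ℝ) ^ k := by
    rw [hPi, Fintype.card_piFinset]
    simp
  set F : (Fin k → ℕ) → ℝ := fun u => P a (fun w => φ (w + u)) with hF
  have hint : ∀ u : Fin k → ℕ, Integrable (fun w => φ (w + u))
      (Measure.pi (fun _ : Fin k => poissonMeasure a)) := fun u => P_int a k _ fun z => hφ _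
  have h1 : P a (fun w => J L S (fun u => φ (w + u))) = (∑ n ∈ range Q, F (U n)) / Q := by
    unfold J P
    rw [integral_div, integral_finsetSum _ fun n _ => hint _]
    rfl
  have h2 : P a (fun w => I L S (fun u => φ (w + u))) = (∑ m ∈ Pi, F (W m)) / (Q : ℝ) ^ k := by
    unfold I P
    rw [integral_div, integral_finsetSum _ fun n _ => hint _]
    rfl
  rw [h1, h2]
  -- the weights
  set c : ℝ := 1 / ((Q : ℝ) * (Q : ℝ) ^ k) with hc
  have hQk : (0 : ℝ) < (Q : ℝ) ^ k := by positivity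
  have hc0 : 0 < c := by positivity
  set T := range Q ×ˢ Pi with hT
  have hTc : (T.card : ℝ) * c = 1 := by
    rw [hT, card_product, card_range, hc]
    push_cast
    rw [hcard]
    field_simp
  have h3 : (∑ n ∈ range Q, F (U n)) / Q - (∑ m ∈ Pi, F (W m)) / (Q : ℝ) ^ k =
      ∑ x ∈ T, c * (F (U x.1) - F (W x.2)) := by
    rw [← mul_sum, sum_sub_distrib, hT, sum_product, sum_product]
    simp only [sum_const, nsmul_eq_mul, card_range]
    rw [← mul_sum, hcard, hc]
    field_simp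
  rw [h3]
  set X : ℕ × (Fin k → ℕ) → ℝ := fun x => (∑ i, ((U x.1 i : ℝ) - W x.2 i) ^ 2) / a with hX
  have h4 : |∑ x ∈ T, c * (F (U x.1) - F (W x.2))| ≤ ∑ x ∈ T, c * (2 - Real.exp (-X x)) := by
    refine (abs_sum_le_sum_abs _ _).trans (sum_le_sum fun x _ => ?_)
    rw [abs_mul, abs_of_pos hc0]
    refine mul_le_mul_of_nonneg_left ?_ hc0.le
    have := hAFF a ha k (U x.1) (W x.2) φ hφ
    rw [hX]
    simp only
    rw [← neg_div]
    exact this
  have h5 : ∑ x ∈ T, c * (2 - Real.exp (-X x)) = 2 - ∑ x ∈ T, c * Real.exp (-X x) := by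
    simp only [mul_sub]
    rw [sum_sub_distrib, sum_const, nsmul_eq_mul, ← mul_assoc, hTc, one_mul]
  have h6 : Real.exp (∑ x ∈ T, c * (-X x)) ≤ ∑ x ∈ T, c * Real.exp (-X x) := by
    have := convexOn_exp.map_sum_le (t := T) (w := fun _ => c) (p := fun x => -X x)
      (fun _ _ => hc0.le) (by rw [sum_const, nsmul_eq_mul, hTc]) (fun _ _ => Set.mem_univ _)
    simpa only [smul_eq_mul] using this
  -- the second moments
  have hmom := (hMOM L S hS).trans hV
  set g : ℕ → ℝ := fun n => ((∑ p ∈ S, val p (L p) n : ℕ) : ℝ) ^ 2 with hg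
  have hmom' : ∑ n ∈ range Q, g n ≤ V * Q := by
    rw [div_le_iff₀ hQr] at hmom
    exact hmom
  have hgper : ∀ m, g (m + Q) = g m := by
    intro m
    rw [hg]
    simp only
    rw [hQ, per]
  have hU2 : ∀ i : Fin k, ∑ n ∈ range Q, (U n i : ℝ) ^ 2 ≤ V * Q := by
    intro i
    have := shift_sum g Q hgper i
    rw [← this] at hmom'
    exact hmom'
  have hW2 : ∀ i : Fin k, ∑ m ∈ Pi, (W m i : ℝ) ^ 2 ≤ V * (Q : ℝ) ^ k := by
    intro i
    have h7 : ∑ m ∈ Pi, (W m i : ℝ) ^ 2 = ∑ m ∈ Pi, ∏ j : Fin k, (if j = i then g (m j) else 1) := by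
      refine sum_congr rfl fun m _ => ?_
      rw [prod_ite_eq' univ i (fun j => g (m j)), if_pos (mem_univ i)]
    have h8 : ∑ m ∈ Pi, ∏ j : Fin k, (if j = i then g (m j) else 1) =
        ∏ j : Fin k, ∑ n ∈ range Q, (if j = i then g n else 1) := by
      rw [hPi]
      exact (prod_univ_sum (fun _ : Fin k => range Q) (fun j n => if j = i then g n else 1)).symm
    have h9 : ∏ j : Fin k, ∑ n ∈ range Q, (if j = i then g n else 1) =
        (∑ n ∈ range Q, g n) * (Q : ℝ) ^ (k - 1) := by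
      rw [← mul_prod_erase univ _ (mem_univ i)]
      congr 1
      · simp
      · have : ∀ j ∈ univ.erase i, (∑ n ∈ range Q, (if j = i then g n else 1)) = (Q : ℝ) := by
          intro j hj
          rw [mem_erase] at hj
          simp [hj.1]
        rw [prod_congr rfl this, prod_const, card_erase_of_mem (mem_univ i)]
        simp
    rw [h7, h8, h9]
    have hk : (Q : ℝ) ^ k = Q * (Q : ℝ) ^ (k - 1) := by
      have : 0 < k := Fin.pos i
      rw [← pow_succ']
      congr 1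
      omega
    rw [hk, ← mul_assoc]
    exact mul_le_mul_of_nonneg_right hmom' (by positivity)
  have har : (0 : ℝ) < a := by exact_mod_cast ha
  have h7 : ∑ x ∈ T, c * X x ≤ 4 * k * V / a := by
    have h8 : ∑ x ∈ T, c * X x ≤ ∑ x ∈ T, c * ((∑ i, (2 * (U x.1 i : ℝ) ^ 2 + 2 * (W x.2 i : ℝ) ^ 2)) / a) := by
      refine sum_le_sum fun x _ => mul_le_mul_of_nonneg_left ?_ hc0.le
      refine div_le_div_of_nonneg_right (sum_le_sum fun i _ => ?_) har.le
      nlinarith [sq_nonneg ((U x.1 i : ℝ) + W x.2 i)]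
    refine h8.trans ?_
    have h9 : ∑ x ∈ T, (∑ i, (2 * (U x.1 i : ℝ) ^ 2 + 2 * (W x.2 i : ℝ) ^ 2)) =
        ∑ i : Fin k, (2 * (∑ n ∈ range Q, (U n i : ℝ) ^ 2) * (Q : ℝ) ^ k +
          2 * (Q : ℝ) * ∑ m ∈ Pi, (W m i : ℝ) ^ 2) := by
      rw [sum_comm]
      refine sum_congr rfl fun i _ => ?_
      rw [sum_add_distrib, hT, sum_product, sum_product]
      simp only [sum_const, nsmul_eq_mul, card_range]
      rw [← mul_sum, ← mul_sum, ← mul_sum, hcard]
      ring
    rw [← mul_sum, ← sum_div, h9]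
    have h10 : ∑ i : Fin k, (2 * (∑ n ∈ range Q, (U n i : ℝ) ^ 2) * (Q : ℝ) ^ k +
          2 * (Q : ℝ) * ∑ m ∈ Pi, (W m i : ℝ) ^ 2) ≤ ∑ i : Fin k, (4 * V * (Q * (Q : ℝ) ^ k)) := by
      refine sum_le_sum fun i _ => ?_
      have e1 := mul_le_mul_of_nonneg_right (hU2 i) hQk.le
      have e2 := mul_le_mul_of_nonneg_left (hW2 i) hQr.le
      nlinarith
    have h11 : ∑ i : Fin k, (4 * V * (Q * (Q : ℝ) ^ k)) = k * (4 * V * (Q * (Q : ℝ) ^ k)) := by
      simp
    rw [h11] at h10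
    calc c * ((∑ i : Fin k, (2 * (∑ n ∈ range Q, (U n i : ℝ) ^ 2) * (Q : ℝ) ^ k +
          2 * (Q : ℝ) * ∑ m ∈ Pi, (W m i : ℝ) ^ 2)) / a) ≤ c * ((k * (4 * V * (Q * (Q : ℝ) ^ k))) / a) :=
          mul_le_mul_of_nonneg_left (div_le_div_of_nonneg_right h10 har.le) hc0.le
      _ = 4 * k * V / a := by
          rw [hc]
          field_simp
  have h8 : Real.exp (-(4 * k * V) / a) ≤ Real.exp (∑ x ∈ T, c * (-X x)) := by
    refine Real.exp_le_exp.2 ?_
    have : ∑ x ∈ T, c * (-X x) = -∑ x ∈ T, c * X x := by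
      rw [← sum_neg_distrib]
      exact sum_congr rfl fun x _ => by ring
    rw [this, neg_div]
    linarith
  rw [h5] at h4
  linarith

end Pool.Agent.H42.OM
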