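import Mathlib
import Pool.Agent.H19.OM.Stm3
import Pool.Agent.H42.OM.Up

set_option autoImplicit false

/-!
# Project OM, module UPJ: the upper bound over a period
-/

namespace Pool.Agent.H42.OM

open Finset Filter Topology Pool.Agent.H19.OM
open scoped NNReal

/-- **(UPJ)** -/
theorem t_UPJ (hHYB : S_HYB) : S_UPJ := by
  intro ε hε
  obtain ⟨K, hK0, hK⟩ := hHYB
  obtain ⟨C, hC0, hC⟩ := mert
  obtain ⟨C1, hC1, hcub⟩ := cubes
  set η : ℝ := ε / 3 with hη
  have hη0 : 0 < η := by positivity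
  set δ : ℝ := min (1 / 2) (η / (2 * K * C1 + 1)) with hδ
  have hden : 0 < 2 * K * C1 + 1 := by positivity
  have hδ0 : 0 < δ := lt_min (by norm_num) (div_pos hη0 hden)
  have hδ1 : δ ≤ 1 / 2 := min_le_left _ _
  have hδ2 : 2 * K * C1 * δ ≤ η := by
    have h1 : δ ≤ η / (2 * K * C1 + 1) := min_le_right _ _
    rw [le_div_iff₀ hden] at h1
    nlinarith
  have hll : Tendsto (fun y : ℕ => Real.log (Real.log (y : ℝ))) atTop atTop :=
    Real.tendsto_log_atTop.comp (Real.tendsto_log_atTop.comp tendsto_natCast_atTop_atTop)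
  obtain ⟨A, hA⟩ := eventually_atTop.1 ((hll.eventually (ev_t C K η hη0)).and (ev_y η hη0))
  refine ⟨δ, hδ0, A, fun y k hy hk hkδ φ hφ => ?_⟩
  obtain ⟨⟨ht1, hta, hts, hM3, hMt, htb, htc, htd, hte⟩, hy1, hya, hyb, hyc, hyd⟩ := hA y hy
  set t : ℝ := Real.log (Real.log (y : ℝ)) with ht
  set M : ℕ := ⌊t ^ 3⌋₊ with hM
  set L : ℕ := ⌊Real.sqrt t / 2⌋₊ with hL
  have ht0 : 0 < t := by linarith
  have hM1 : 1 ≤ M := by omega
  have hMr : (0 : ℝ) < M := by exact_mod_cast (by omega : 0 < M)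
  have hMle : (M : ℝ) ≤ t ^ 3 := Nat.floor_le (by positivity)
  have ht37 : t ^ 3 ≤ t ^ 7 := pow_le_pow_right₀ ht1 (by norm_num)
  have hty : t ^ 7 ≤ y := hyc.trans hyd
  have hMy : M ≤ y := by
    have : (M : ℝ) ≤ y := by linarith
    exact_mod_cast this
  have hL1 : 1 ≤ L := by
    rw [hL]
    exact Nat.le_floor (by push_cast; linarith)
  have hLle : (L : ℝ) ≤ Real.sqrt t / 2 := Nat.floor_le (by positivity)
  have hsq : Real.sqrt t ^ 2 = t := Real.sq_sqrt ht0.le
  have hkt : (k : ℝ) ≤ t / 2 := hkδ.trans (by nlinarith)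
  have hkt1 : (k : ℝ) ≤ t := by linarith
  have hk0 : (0 : ℝ) ≤ k := Nat.cast_nonneg k
  have hlM : Real.log (Real.log M) ≤ 3 * Real.log t := by
    have hM3' : (3 : ℝ) ≤ M := by exact_mod_cast hM3
    have h1 : 0 < Real.log M := Real.log_pos (by linarith)
    have h2 := Real.log_le_sub_one_of_pos h1
    have h3 : Real.log M ≤ Real.log (t ^ 3) := Real.log_le_log hMr hMle
    rw [Real.log_pow] at h3
    push_cast at h3
    linarith
  obtain ⟨hB, hS⟩ := hC M y hM3 hMy
  have hBt : t / 2 ≤ ∑ q ∈ prs M y, 1 / (q : ℝ) := by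
    have : t - C - Real.log (Real.log M) ≤ ∑ q ∈ prs M y, 1 / (q : ℝ) := hB
    linarith
  have hH := hK (prs 0 M) (prs M y) k (cap M L) (by
      unfold prs
      refine disjoint_filter_filter ?_
      rw [disjoint_left]
      intro a ha hb
      rw [mem_Ioc] at ha hb
      omega) hk (by linarith) (by
      intro q hq
      unfold prs at hq
      rw [mem_filter, mem_Ioc] at hq
      refine ⟨hq.2, ?_, ?_⟩
      · have h1 : t ^ 3 < (q : ℝ) := by
          have h2 : t ^ 3 < (M : ℝ) + 1 := Nat.lt_floor_add_one _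
          have h3 : (M : ℝ) + 1 ≤ q := by exact_mod_cast hq.1.1
          linarith
        have h4 : t ≤ t ^ 3 := le_self_pow₀ ht1 (by norm_num)
        have h5 : (k : ℝ) ≤ q := by linarith
        exact_mod_cast h5
      · unfold cap
        rw [if_neg (by omega)]) (by
      intro p hp
      unfold prs at hp
      rw [mem_filter, mem_Ioc] at hp
      have h1 : cap M L p = L := by
        unfold cap
        rw [if_pos hp.1.2]
      rw [h1]
      refine ⟨hp.2, hL1, ?_⟩
      have h2 : (L : ℝ) ^ 2 ≤ (Real.sqrt t / 2) ^ 2 := pow_le_pow_left₀ (Nat.cast_nonneg _) hLle 2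
      have h3 : (Real.sqrt t / 2) ^ 2 = t / 4 := by rw [div_pow, hsq]; norm_num
      linarith) φ hφ
  have hT1 : 6 * ∑ q ∈ prs M y, ((k : ℝ) / q) ^ 2 ≤ η := by
    have h1 := sqs M y k hM1 hMy
    have h2 : (k : ℝ) ^ 2 / M ≤ 2 / t := by
      rw [div_le_div_iff₀ hMr ht0]
      have h3 : (k : ℝ) ^ 2 ≤ t ^ 2 := pow_le_pow_left₀ hk0 hkt1 2
      nlinarith
    have h4 : 6 * (2 / t) = 12 / t := by ring
    linarith
  have hT2 : K * (∑ p ∈ prs 0 M, ((k : ℝ) / (p * Real.sqrt p) + Real.sqrt k / p)) /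
      ∑ q ∈ prs M y, 1 / (q : ℝ) ≤ 2 * η := by
    have h1 : ∑ p ∈ prs 0 M, ((k : ℝ) / (p * Real.sqrt p) + Real.sqrt k / p) =
        k * ∑ p ∈ prs 0 M, 1 / ((p : ℝ) * Real.sqrt p) + Real.sqrt k * ∑ p ∈ prs 0 M, 1 / (p : ℝ) := by
      rw [mul_sum, mul_sum, ← sum_add_distrib]
      exact sum_congr rfl fun p _ => by ring
    have hS' : ∑ p ∈ prs 0 M, 1 / (p : ℝ) ≤ 3 * Real.log t + C := by linarith
    have hS0 : 0 ≤ ∑ p ∈ prs 0 M, 1 / (p : ℝ) := sum_nonneg fun _ _ => by positivity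
    have h2 : ∑ p ∈ prs 0 M, ((k : ℝ) / (p * Real.sqrt p) + Real.sqrt k / p) ≤
        δ * t * C1 + Real.sqrt t * (3 * Real.log t + C) := by
      rw [h1]
      refine add_le_add ?_ ?_
      · exact mul_le_mul hkδ (hcub _) (sum_nonneg fun _ _ => by positivity) (by positivity)
      · exact mul_le_mul (Real.sqrt_le_sqrt hkt1) hS' hS0 (Real.sqrt_nonneg _)
    have h3 : 0 ≤ δ * t * C1 + Real.sqrt t * (3 * Real.log t + C) := by
      have h4 : 0 ≤ 3 * Real.log t + C := hS0.trans hS'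
      positivity
    calc K * (∑ p ∈ prs 0 M, ((k : ℝ) / (p * Real.sqrt p) + Real.sqrt k / p)) /
          ∑ q ∈ prs M y, 1 / (q : ℝ)
        ≤ K * (δ * t * C1 + Real.sqrt t * (3 * Real.log t + C)) / (t / 2) :=
          div_le_div₀ (mul_nonneg hK0 h3) (mul_le_mul_of_nonneg_left h2 hK0) (by linarith) hBt
      _ = 2 * K * C1 * δ + 2 * K * ((3 * Real.log t + C) / Real.sqrt t) := by
          have h5 : Real.sqrt t ≠ 0 := (Real.sqrt_pos.2 ht0).ne'
          have h6 : Real.sqrt t / t = 1 / Real.sqrt t := by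
            rw [div_eq_div_iff ht0.ne' h5, one_mul, ← sq, hsq]
          have h7 : K * (δ * t * C1 + Real.sqrt t * (3 * Real.log t + C)) / (t / 2) =
              2 * K * C1 * δ * (t / t) + 2 * K * (3 * Real.log t + C) * (Real.sqrt t / t) := by
            field_simp
          rw [h7, h6, div_self ht0.ne']
          ring
      _ ≤ 2 * η := by linarith
  have h8 := hH.trans (add_le_add hT1 hT2)
  rw [hη] at h8
  linarith

end Pool.Agent.H42.OM
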